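import Mathlib

/-! Vocabulary: real valued valuations, frames, logarithmic derivations, lattice volumes. -/

namespace Pool.Agent.MP_c0606f_ag.Klt

open scoped NNReal
open MvPolynomial

/-- real valued valuations (multiplicative) -/
abbrev Val (L : Type) [Field L] := Valuation L ℝ≥0

section Val

variable {L : Type} [Field L] [Algebra ℂ L]

/-- the residues of `u` are algebraically independent over `ℂ` (and `v` is trivial on `ℂ`) -/
def ResInd (v : Val L) {κ : Type} (u : κ → L) : Prop :=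
  ∀ p : MvPolynomial κ ℂ, p ≠ 0 → v (aeval u p) = 1

/-- a frame: `0 < v t < 1`, the residues of `u` are independent and `L` is algebraic over
`ℂ[t, u]` -/
structure IsFrame (v : Val L) {κ : Type} (t : L) (u : κ → L) : Prop where
  pos : 0 < v t
  lt : v t < 1
  res : ResInd v u
  alg : ∀ a : L, IsAlgebraic (Algebra.adjoin ℂ (insert t (Set.range u))) a

/-- Abhyankar valuations of rank one and rational rank one -/
def IsAbh (v : Val L) : Prop := ∃ (q : ℕ) (t : L) (u : Fin q → L), IsFrame v t u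

/-- `t` is a uniformiser for the elements of `k` -/
def IsUnifOn (v : Val L) (k : Set L) (t : L) : Prop :=
  0 < v t ∧ v t < 1 ∧ ∀ a ∈ k, a ≠ 0 → ∃ j : ℤ, v a = v t ^ j

/-- `t` is a uniformiser -/
def IsUnif (v : Val L) (t : L) : Prop := IsUnifOn v Set.univ t

/-- logarithmically integral derivations killing `k` -/
def LD (v : Val L) (k : Set L) : Set (Derivation ℂ L L) :=
  {D | (∀ a, v (D a) ≤ v a) ∧ ∀ a ∈ k, D a = 0}

/-- evaluation of derivations at an element -/
def evD (a : L) : Derivation ℂ L L →ₗ[L] L where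
  toFun D := D a
  map_add' _ _ := rfl
  map_smul' _ _ := rfl

@[simp] theorem evD_apply (a : L) (D : Derivation ℂ L L) : evD a D = D a := rfl

/-- the derivations dual to a frame: `D0 = t d/dt` and `D i = d/du_i` -/
structure IsDual {κ : Type} [DecidableEq κ] (t : L) (u : κ → L) (D0 : Derivation ℂ L L)
    (D : κ → Derivation ℂ L L) : Prop where
  tt : D0 t = t
  tu : ∀ j, D0 (u j) = 0
  ut : ∀ i, D i t = 0
  uu : ∀ i j, D i (u j) = if i = j then 1 else 0

/-- the elements algebraic over `ℂ(u)` -/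
noncomputable def Om {κ : Type} (u : κ → L) : IntermediateField ℂ L :=
  (algebraicClosure (IntermediateField.adjoin ℂ (Set.range u)) L).restrictScalars ℂ

/-- `a` can be approximated by polynomials in `t` with coefficients in `Ω` -/
def Apx (v : Val L) (Ω : Set L) (t a : L) : Prop :=
  ∀ j : ℕ, ∃ p : Polynomial L, (∀ i, p.coeff i ∈ Ω) ∧ v (a - p.eval t) ≤ v t ^ j

/-- a family of fresh variables `ξ` with dual derivations `D` killing `k` -/
structure Fresh (v : Val L) (k : Set L) {Z : Type} [DecidableEq Z] (ξ : Z → L)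
    (D : Z → Derivation ℂ L L) : Prop where
  mem : ∀ a, D a ∈ LD v k
  le : ∀ a, v (ξ a) ≤ 1
  dual : ∀ a b, D a (ξ b) = if a = b then 1 else 0

end Val

/-- the field `L` as an algebra over `ℂ` through `φ` -/
def Tw {L : Type} [Field L] (_φ : ℂ →+* L) : Type := L

namespace Tw

variable {L : Type} [Field L] (φ : ℂ →+* L)

instance : Field (Tw φ) := inferInstanceAs (Field L)

noncomputable instance : Algebra ℂ (Tw φ) := RingHom.toAlgebra (S := Tw φ) φ

/-- the identity map -/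
def mk : L ≃+* Tw φ := RingEquiv.refl L

theorem algebraMap_eq (c : ℂ) : algebraMap ℂ (Tw φ) c = mk φ (φ c) := rfl

/-- the valuation on the twisted field -/
def val (v : Val L) : Val (Tw φ) := v

@[simp] theorem val_mk (v : Val L) (a : L) : val φ v (mk φ a) = v a := rfl

instance [IsAlgClosed L] : IsAlgClosed (Tw φ) := inferInstanceAs (IsAlgClosed L)

end Tw

section Lat

variable {L : Type} [Field L] {E : Type} [AddCommGroup E] [Module L E] {α : Type}

/-- a module over the valuation ring -/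
structure IsLat (v : Val L) (M : Set E) : Prop where
  zero : (0 : E) ∈ M
  add : ∀ a ∈ M, ∀ b ∈ M, a + b ∈ M
  smul : ∀ c : L, v c ≤ 1 → ∀ a ∈ M, c • a ∈ M

/-- the functionals are bounded on `M` -/
def Bdd (v : Val L) (M : Set E) (ℓ : α → E →ₗ[L] L) : Prop :=
  ∀ a, ∃ C : ℝ≥0, ∀ e ∈ M, v (ℓ a e) ≤ C

/-- the functionals are integral on `M` -/
def Bdd1 (v : Val L) (M : Set E) (ℓ : α → E →ₗ[L] L) : Prop := ∀ a, ∀ e ∈ M, v (ℓ a e) ≤ 1

/-- the elements of `M` killed by the functionals in `S` -/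
def kill (M : Set E) (ℓ : α → E →ₗ[L] L) (S : Finset α) : Set E :=
  {e | e ∈ M ∧ ∀ a ∈ S, ℓ a e = 0}

/-- the largest minor of the functionals in `S` on `M` -/
noncomputable def lvol [DecidableEq α] (v : Val L) (M : Set E) (ℓ : α → E →ₗ[L] L)
    (S : Finset α) : ℝ≥0 :=
  ⨆ e : S → M, v (Matrix.of fun i j : S => ℓ j (e i)).det

/-- integral vectors -/
def intv (v : Val L) (ι : Type) : Set (ι → L) := {b | ∀ i, v (b i) ≤ 1}

/-- pairing with a vector -/
def dotL {ι : Type} [Fintype ι] (a : ι → L) : (ι → L) →ₗ[L] L where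
  toFun b := ∑ i, b i * a i
  map_add' b b' := by simp [add_mul, Finset.sum_add_distrib]
  map_smul' c b := by simp [Finset.mul_sum, mul_assoc]

@[simp] theorem dotL_apply {ι : Type} [Fintype ι] (a b : ι → L) : dotL a b = ∑ i, b i * a i := rfl

/-- integral vectors with linearly independent residues -/
def RI (v : Val L) {ρ ι : Type} [Fintype ρ] (f : ρ → ι → L) : Prop :=
  (∀ l i, v (f l i) ≤ 1) ∧ ∀ γ : ρ → L, (∀ l, v (γ l) ≤ 1) →
    (∀ i, v (∑ l, γ l * f l i) < 1) → ∀ l, v (γ l) < 1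

end Lat

section Ent

variable {L : Type} [Field L] [Algebra ℂ L]

/-- `exp (-H (y | k))`: the largest Jacobian of `y` along logarithmic derivations killing `k` -/
noncomputable def evol (v : Val L) (k : Set L) {ι : Type} [Fintype ι] [DecidableEq ι]
    (y : ι → L) : ℝ≥0 :=
  lvol v (LD v k) (fun i => evD (y i)) Finset.univ

/-- `exp (-A)`, where `A` is the log discrepancy with respect to the form `dy` -/
noncomputable def avol (v : Val L) {ι : Type} [Fintype ι] [DecidableEq ι] (y : ι → L) : ℝ≥0 :=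
  evol v ∅ y

end Ent

/-- A finite cover of affine space: `L = ℂ(y)(z)`, `P` is the minimal polynomial of `z` and the
cover is unramified where `Δ ≠ 0`. -/
structure Cover (ι : Type) (L : Type) [Field L] [Algebra ℂ L] where
  y : ι → L
  z : L
  P : Polynomial (MvPolynomial ι ℂ)
  Δ : MvPolynomial ι ℂ
  indep : AlgebraicIndependent ℂ y
  monic : P.Monic
  root : P.eval₂ (aeval y : MvPolynomial ι ℂ →ₐ[ℂ] L).toRingHom z = 0
  minimal : ∀ q : Polynomial (MvPolynomial ι ℂ),
    q.eval₂ (aeval y : MvPolynomial ι ℂ →ₐ[ℂ] L).toRingHom z = 0 → P ∣ q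
  gen : ∀ a : L, ∃ (q : Polynomial (MvPolynomial ι ℂ)) (b : MvPolynomial ι ℂ), b ≠ 0 ∧
    a * aeval y b = q.eval₂ (aeval y : MvPolynomial ι ℂ →ₐ[ℂ] L).toRingHom z
  Δ_ne : Δ ≠ 0
  bez : ∃ a b : Polynomial (MvPolynomial ι ℂ),
    Polynomial.C Δ = a * P + b * Polynomial.derivative P

namespace Cover

variable {ι L : Type} [Field L] [Algebra ℂ L] (C : Cover ι L)

/-- the value `q(y, z)` in `L` -/
noncomputable def pv (q : Polynomial (MvPolynomial ι ℂ)) : L :=
  q.eval₂ (aeval C.y : MvPolynomial ι ℂ →ₐ[ℂ] L).toRingHom C.z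

theorem pv_add (q q' : Polynomial (MvPolynomial ι ℂ)) : C.pv (q + q') = C.pv q + C.pv q' :=
  Polynomial.eval₂_add _ _

theorem pv_mul (q q' : Polynomial (MvPolynomial ι ℂ)) : C.pv (q * q') = C.pv q * C.pv q' :=
  Polynomial.eval₂_mul _ _

theorem pv_C (b : MvPolynomial ι ℂ) : C.pv (Polynomial.C b) = aeval C.y b :=
  Polynomial.eval₂_C _ _

theorem pv_X : C.pv Polynomial.X = C.z := Polynomial.eval₂_X _ _

/-- the regular functions on the unramified locus -/
noncomputable def A : Subalgebra ℂ L where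
  carrier := {a | ∃ (q : Polynomial (MvPolynomial ι ℂ)) (k : ℕ), a * aeval C.y C.Δ ^ k = C.pv q}
  mul_mem' := by
    rintro a b ⟨q, k, h⟩ ⟨q', k', h'⟩
    exact ⟨q * q', k + k', by rw [C.pv_mul, ← h, ← h']; ring⟩
  add_mem' := by
    rintro a b ⟨q, k, h⟩ ⟨q', k', h'⟩
    refine ⟨q * Polynomial.C (C.Δ ^ k') + q' * Polynomial.C (C.Δ ^ k), k + k', ?_⟩
    rw [C.pv_add, C.pv_mul, C.pv_mul, C.pv_C, C.pv_C, ← h, ← h', map_pow, map_pow]; ring
  algebraMap_mem' := fun c => ⟨Polynomial.C (MvPolynomial.C c), 0, by rw [C.pv_C]; simp⟩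

theorem mem_A {a : L} : a ∈ C.A ↔
    ∃ (q : Polynomial (MvPolynomial ι ℂ)) (k : ℕ), a * aeval C.y C.Δ ^ k = C.pv q := Iff.rfl

/-- `(y, z)` is a point of the unramified locus with values in `R`, constants mapped by `φ` -/
def IsPt {R : Type} [Field R] (φ : ℂ →+* R) (y : ι → R) (z : R) : Prop :=
  C.P.eval₂ (eval₂Hom φ y) z = 0 ∧ eval₂Hom φ y C.Δ ≠ 0

open Classical in
/-- the value of a regular function at a point -/
noncomputable def ev {R : Type} [Field R] (φ : ℂ →+* R) (y : ι → R) (z : R) (a : L) : R :=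
  if h : a ∈ C.A then
    (C.mem_A.1 h).choose.eval₂ (eval₂Hom φ y) z /
      eval₂Hom φ y C.Δ ^ (C.mem_A.1 h).choose_spec.choose
  else 0

/-- complex points -/
def Pt : Type := {p : (ι → ℂ) × ℂ // C.IsPt (RingHom.id ℂ) p.1 p.2}

instance : TopologicalSpace C.Pt := inferInstanceAs (TopologicalSpace (Subtype _))
instance : T2Space C.Pt := inferInstanceAs (T2Space (Subtype _))
instance [Finite ι] : SecondCountableTopology C.Pt :=
  TopologicalSpace.Subtype.secondCountableTopology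
    {p : (ι → ℂ) × ℂ | C.IsPt (RingHom.id ℂ) p.1 p.2}
instance : MeasurableSpace C.Pt := borel _
instance : BorelSpace C.Pt := ⟨rfl⟩

/-- a regular function as a function on complex points -/
noncomputable def fn (a : L) (p : C.Pt) : ℂ := C.ev (RingHom.id ℂ) p.1.1 p.1.2 a

/-- the denominator `Δ * P'(z)` -/
noncomputable def θ : L := aeval C.y C.Δ * C.pv (Polynomial.derivative C.P)

/-- polynomials in `y, z` with bounded degrees -/
noncomputable def Poly (M : ι → ℕ) : Submodule ℂ L :=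
  Submodule.span ℂ {a | ∃ (α : ι →₀ ℕ) (j : ℕ), (∀ i, α i ≤ M i) ∧ j < C.P.natDegree ∧
    a = aeval C.y (monomial α (1 : ℂ)) * C.z ^ j}

/-- the monomials in `y (some i), z` with exponents at most `M` -/
noncomputable def mono {κ : Type} [Fintype κ] (C : Cover (Option κ) L) (M : ℕ)
    (a : (κ → Fin (M + 1)) × Fin C.P.natDegree) : L :=
  (∏ i, C.y (some i) ^ (a.1 i : ℕ)) * C.z ^ (a.2 : ℕ)

end Cover

/-- the weight `∏ (1 + |y i|^2)^(-M i)` -/
noncomputable def wt {ι : Type} [Fintype ι] (M : ι → ℕ) (y : ι → ℂ) : ℝ :=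
  ∏ i, ((1 + ‖y i‖ ^ 2)⁻¹) ^ M i

namespace Cover

variable {ι L : Type} [Field L] [Algebra ℂ L] [Fintype ι] (C : Cover ι L)

/-- polynomial growth -/
def Grow (M : ι → ℕ) (a : L) : Prop :=
  ∃ B : ℝ, ∀ p : C.Pt, ‖C.fn a p‖ ^ 2 * wt M p.1.1 ≤ B

/-- `|g|^2 |F|^(-2c) |h|^(-2)` is integrable against a polynomial weight -/
def Intg (g F h : L) (c : ℝ) : Prop :=
  ∃ (b : MvPolynomial ι ℂ) (Φ : (ι → ℂ) → ℝ) (M : ι → ℕ), b ≠ 0 ∧ Measurable Φ ∧ (∀ y, 0 ≤ Φ y) ∧
    MeasureTheory.Integrable (fun y => Φ y * wt M y) ∧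
    ∀ p : C.Pt, eval p.1.1 b ≠ 0 →
      ‖C.fn g p‖ ^ 2 ≤ Φ p.1.1 * (‖C.fn F p‖ ^ 2) ^ c * ‖C.fn h p‖ ^ 2

end Cover

end Pool.Agent.MP_c0606f_ag.Klt
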