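import Mathlib

/-!
Definitions for the comparison of the Gibbs invariant with the stability threshold of a Fano
variety with klt singularities.  The variety `X` is given by its function field `K`, a
transcendence basis `y` (the rational top form `dy`) and functions `s i` such that the sections
`s i * (dy)^(-r)` of `-r K_X` embed `X` into a projective space.
-/

namespace Pool.Agent.MP_c0606f_ag.Klt

open scoped ENNReal WithZero

section General

variable {F : Type} [Field F] [Algebra ℂ F] {ι κ : Type} [Fintype ι] [DecidableEq ι]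

/-- The order of vanishing of a function. -/
noncomputable def ord (v : Valuation F ℤᵐ⁰) (a : F) : ℤ := -WithZero.log (v a)

/-- `v` is the order of vanishing along a prime divisor over a variety of dimension `d`: a
normalised discrete valuation whose residue field has transcendence degree `d - 1`. -/
def IsDiv (d : ℕ) (v : Valuation F ℤᵐ⁰) : Prop :=
  Function.Surjective v ∧ ∃ u : Fin (d - 1) → F,
    ∀ p : MvPolynomial (Fin (d - 1)) ℂ, p ≠ 0 → v (MvPolynomial.aeval u p) = 1

/-- The order of vanishing of the rational top form `dy` along the divisor: the least order of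
`dy (D_1, ..., D_d)` for vector fields `D_i` regular at the generic point of the divisor. -/
noncomputable def ordForm (v : Valuation F ℤᵐ⁰) (y : ι → F) : ℤ :=
  sInf {k | ∃ D : ι → Derivation ℂ F F, (∀ i a, v a ≤ 1 → v (D i a) ≤ 1) ∧
    (Matrix.of fun i j => D i (y j)).det ≠ 0 ∧ k = ord v (Matrix.of fun i j => D i (y j)).det}

/-- The log discrepancy, when the sections `s i * (dy)^(-r)` generate `-r K`. -/
noncomputable def logDisc (r : ℕ) (y : ι → F) (s : κ → F) (v : Valuation F ℤᵐ⁰) : ℝ :=
  1 + (ordForm v y : ℝ) - ((⨅ i, ord v (s i) : ℤ) : ℝ) / r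

/-- The order of vanishing of the pull-back of the section `g * (dy)^(-m)` of `-m K`. -/
noncomputable def secOrd (r : ℕ) (s : κ → F) (v : Valuation F ℤᵐ⁰) (m : ℕ) (g : F) : ℝ :=
  (ord v g : ℝ) - m * ((⨅ i, ord v (s i) : ℤ) : ℝ) / r

/-- The coordinate ring of the affine chart `s i ≠ 0`. -/
noncomputable def chart (s : κ → F) (i : κ) : Subalgebra ℂ F :=
  Algebra.adjoin ℂ (Set.range fun j => s j / s i)

/-- Prime divisors on the variety itself: the valuation ring is a local ring of the variety. -/
def OnX (d : ℕ) (s : κ → F) (v : Valuation F ℤᵐ⁰) : Prop :=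
  IsDiv d v ∧ ∃ i, (∀ a ∈ chart s i, v a ≤ 1) ∧
    ∀ a, v a ≤ 1 → ∃ b ∈ chart s i, ∃ c ∈ chart s i, v c = 1 ∧ a * c = b

end General

variable {K : Type} [Field K] [Algebra ℂ K] {n k : ℕ}

/-- `s` embeds a normal projective variety `X` with function field `K`, `O(1) = O(-r K_X)` and all
log discrepancies are positive. -/
structure IsKltFano (r : ℕ) (y : Fin n → K) (s : Fin (k + 1) → K) : Prop where
  pos : 0 < r
  basis : IsTranscendenceBasis ℂ y
  ne : ∀ i, s i ≠ 0
  frac : ∀ i, IsFractionRing (chart s i) K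
  normal : ∀ i, IsIntegrallyClosed (chart s i)
  anti : ∀ v, OnX n s v → (⨅ i, ord v (s i)) = r * ordForm v y
  klt : ∀ v, IsDiv n v → 0 < logDisc r y s v

/-- Global sections `g * (dy)^(-m)` of `-m K_X`. -/
noncomputable def H0 (y : Fin n → K) (s : Fin (k + 1) → K) (m : ℕ) : Submodule ℂ K where
  carrier := {g | ∀ v, OnX n s v → v g ≤ WithZero.exp (-(m * ordForm v y))}
  add_mem' := fun ha hb v hv => v.map_add_le (ha v hv) (hb v hv)
  zero_mem' := fun v _ => by simp
  smul_mem' := fun c g hg v hv => by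
    obtain ⟨u, hu⟩ := hv.1.2
    by_cases hc : c = 0
    · simp [hc]
    · have := hu (MvPolynomial.C c) (by simpa using hc)
      rw [MvPolynomial.aeval_C] at this
      rw [Algebra.smul_def, map_mul, this, one_mul]
      exact hg v hv

/-- The volume of `-K_X - t E`. -/
noncomputable def vol (r : ℕ) (y : Fin n → K) (s : Fin (k + 1) → K) (v : Valuation K ℤᵐ⁰)
    (t : ℝ) : ℝ≥0∞ :=
  Filter.limsup (fun m : ℕ => (Module.finrank ℂ (Submodule.span ℂ
    {g | g ∈ H0 y s m ∧ g ≠ 0 ∧ t * m ≤ secOrd r s v m g}) : ℝ≥0∞) * (n.factorial : ℝ≥0∞) /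
      (m : ℝ≥0∞) ^ n) Filter.atTop

/-- The stability threshold. -/
noncomputable def delta (r : ℕ) (y : Fin n → K) (s : Fin (k + 1) → K) : ℝ≥0∞ :=
  ⨅ (v : Valuation K ℤᵐ⁰) (_ : IsDiv n v), ENNReal.ofReal (logDisc r y s v) /
    ((∫⁻ t in Set.Ioi (0 : ℝ), vol r y s v t) / vol r y s v 0)

/-- The log canonical threshold of `(X^N, D / m)`, where `D` is the zero divisor of the section
`det (b i (x j))`.  The function field `L` of `X^N` is generated by `N` copies `e j` of `K` and has
dimension `N * n`; `-r K` of the product is generated by the products of the `e j (s i)`. -/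
noncomputable def lct (r : ℕ) (y : Fin n → K) (s : Fin (k + 1) → K) (m : ℕ) {N : ℕ}
    (b : Fin N → K) : ℝ≥0∞ :=
  ⨅ (L : Type) (_ : Field L) (_ : Algebra ℂ L) (e : Fin N → K →ₐ[ℂ] L)
    (_ : IntermediateField.adjoin ℂ (⋃ j, Set.range (e j)) = ⊤)
    (w : Valuation L ℤᵐ⁰) (_ : IsDiv (N * n) w),
    ENNReal.ofReal (logDisc r (fun p : Fin N × Fin n => e p.1 (y p.2))
      (fun φ : Fin N → Fin (k + 1) => ∏ j, e j (s (φ j))) w) /
    ENNReal.ofReal (secOrd r (fun φ : Fin N → Fin (k + 1) => ∏ j, e j (s (φ j))) w m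
      (Matrix.of fun i j => e j (b i)).det / m)

end Pool.Agent.MP_c0606f_ag.Klt
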